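import Mathlib
import Pool.Agent.MP_7be75d_co.cy.Final

namespace Pool.Agent.Results.MP_7be75d_co.CyclesSharp

open Pool.Agent.MP_7be75d_co

/-- For every `c` and `ε > 0` there is `g` such that every finite graph of tree-width at least
`(1 + ε) n + g` contains as a minor every disjoint union of `c` cycles with `n` vertices in total. -/
theorem result (c : ℕ) (ε : ℝ) (hε : 0 < ε) : ∃ g : ℕ, ∀ ℓ : Fin c → ℕ,
    ∀ (V : Type) [Fintype V] (G : SimpleGraph V),
    (1 + ε) * ((∑ i, ℓ i : ℕ) : ℝ) + (g : ℝ) ≤ (treewidth G : ℝ) → IsMinor (cycles ℓ) G :=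
  Cy.main_real c ε hε

end Pool.Agent.Results.MP_7be75d_co.CyclesSharp
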