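import Mathlib
import Pool.Agent.MP_7be75d_co.Gen.Final

namespace Pool.Agent.Results.MP_7be75d_co.Full

open Pool.Agent.MP_7be75d_co

/-- For every `c` there is `g` such that every finite graph of tree-width at least `g |V(H)|`
contains `H` as a minor, for every planar graph `H` without `c + 1` pairwise disjoint cycles. -/
theorem result (c : ℕ) : ∃ g : ℕ, ∀ (W V : Type) [Fintype W] [Fintype V] (H : SimpleGraph W)
    (G : SimpleGraph V), IsPlane H →
    (¬ ∃ (v : Fin (c + 1) → W) (p : ∀ i, H.Walk (v i) (v i)), (∀ i, (p i).IsCycle) ∧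
      ∀ i j, i ≠ j → (p i).support.Disjoint (p j).support) →
    g * Fintype.card W ≤ treewidth G → IsMinor H G := Gen.main_thm c

end Pool.Agent.Results.MP_7be75d_co.Full
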